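import Mathlib

set_option autoImplicit false

/-! # Mean increments of a function -/

open Filter Topology Set MeasureTheory

namespace Pool.Agent.Q32.Si

/-- mean increment over shifts inside the window `[X, X + L]` -/
noncomputable def S (f : ℝ → ℝ) (X L t : ℝ) : ℝ := ∫ y in X..(X + L - t), |f (y + t) - f y|

/-- measurable and bounded on bounded intervals -/
structure Nice (f : ℝ → ℝ) : Prop where
  meas : Measurable f
  bd : ∀ a b : ℝ, ∃ C : ℝ, ∀ y ∈ Icc a b, |f y| ≤ C

theorem Nice.shift {f : ℝ → ℝ} (hf : Nice f) (t : ℝ) : Nice (fun y => f (y + t)) where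
  meas := hf.meas.comp (measurable_id.add_const t)
  bd a b := by
    obtain ⟨C, hC⟩ := hf.bd (a + t) (b + t)
    exact ⟨C, fun y hy => hC _ ⟨by linarith [hy.1], by linarith [hy.2]⟩⟩

theorem Nice.sub {f g : ℝ → ℝ} (hf : Nice f) (hg : Nice g) : Nice (fun y => f y - g y) where
  meas := hf.meas.sub hg.meas
  bd a b := by
    obtain ⟨C, hC⟩ := hf.bd a b
    obtain ⟨D, hD⟩ := hg.bd a b
    exact ⟨C + D, fun y hy => (abs_sub _ _).trans (add_le_add (hC y hy) (hD y hy))⟩

theorem Nice.abs {f : ℝ → ℝ} (hf : Nice f) : Nice (fun y => |f y|) where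
  meas := by
    have := hf.meas
    fun_prop
  bd a b := by
    obtain ⟨C, hC⟩ := hf.bd a b
    exact ⟨C, fun y hy => by rw [abs_abs]; exact hC y hy⟩

theorem Nice.sq {f : ℝ → ℝ} (hf : Nice f) : Nice (fun y => f y ^ 2) where
  meas := hf.meas.pow_const 2
  bd a b := by
    obtain ⟨C, hC⟩ := hf.bd a b
    refine ⟨C ^ 2, fun y hy => ?_⟩
    rw [abs_pow]
    exact pow_le_pow_left₀ (abs_nonneg _) (hC y hy) 2

theorem Nice.ii {f : ℝ → ℝ} (hf : Nice f) (a b : ℝ) : IntervalIntegrable f volume a b := by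
  obtain ⟨C, hC⟩ := hf.bd (min a b) (max a b)
  refine (intervalIntegrable_const (c := C)).mono_fun' hf.meas.aestronglyMeasurable ?_
  refine (ae_restrict_mem measurableSet_uIoc).mono fun y hy => ?_
  exact hC y (uIoc_subset_uIcc hy)

theorem nice_inc {f : ℝ → ℝ} (hf : Nice f) (t : ℝ) : Nice (fun y => |f (y + t) - f y|) :=
  ((hf.shift t).sub hf).abs

theorem S_add {f : ℝ → ℝ} (hf : Nice f) {X L s t : ℝ} (hs : 0 ≤ s) (ht : 0 ≤ t) (hL : s + t ≤ L) :
    S f X L (s + t) ≤ S f X L s + S f X L t := by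
  unfold S
  have hi := fun t => (nice_inc hf t).ii
  have h1 : ∫ y in X..(X + L - (s + t)), |f (y + (s + t)) - f y| ≤
      ∫ y in X..(X + L - (s + t)), (|f (y + s) - f y| + |f ((y + s) + t) - f (y + s)|) := by
    refine intervalIntegral.integral_mono_on (by linarith) (hi _ _ _)
      ((hi s _ _).add (((nice_inc hf t).shift s).ii _ _)) fun y _ => ?_
    have e : f (y + (s + t)) - f y = (f (y + s) - f y) + (f ((y + s) + t) - f (y + s)) := by
      rw [show y + (s + t) = (y + s) + t by ring]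
      ring
    rw [e]
    exact abs_add_le _ _
  rw [intervalIntegral.integral_add (hi s _ _) (((nice_inc hf t).shift s).ii _ _)] at h1
  refine h1.trans (add_le_add ?_ ?_)
  · rw [← intervalIntegral.integral_add_adjacent_intervals (hi s X (X + L - (s + t)))
      (hi s (X + L - (s + t)) (X + L - s))]
    have : 0 ≤ ∫ y in (X + L - (s + t))..(X + L - s), |f (y + s) - f y| :=
      intervalIntegral.integral_nonneg (by linarith) fun _ _ => abs_nonneg _
    linarith
  · rw [intervalIntegral.integral_comp_add_right (fun y => |f (y + t) - f y|) s]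
    rw [show X + L - (s + t) + s = X + L - t by ring,
      ← intervalIntegral.integral_add_adjacent_intervals (hi t X (X + s)) (hi t (X + s) (X + L - t))]
    have : 0 ≤ ∫ y in X..(X + s), |f (y + t) - f y| :=
      intervalIntegral.integral_nonneg (by linarith) fun _ _ => abs_nonneg _
    linarith

theorem S_nonneg {f : ℝ → ℝ} {X L t : ℝ} (ht : t ≤ L) : 0 ≤ S f X L t :=
  intervalIntegral.integral_nonneg (by linarith) fun _ _ => abs_nonneg _

theorem S_mul {f : ℝ → ℝ} (hf : Nice f) {X L t : ℝ} (ht : 0 ≤ t) (n : ℕ) (hL : n * t ≤ L) :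
    S f X L (n * t) ≤ n * S f X L t := by
  induction n with
  | zero =>
    simp only [Nat.cast_zero, zero_mul]
    unfold S
    simp
  | succ n ih =>
    push_cast at hL ⊢
    have h0 : (0:ℝ) ≤ n := Nat.cast_nonneg n
    have h1 : n * t ≤ L := by nlinarith
    have h2 := S_add hf (X := X) (mul_nonneg h0 ht) ht (show n * t + t ≤ L by linarith)
    rw [show ((n : ℝ) + 1) * t = n * t + t by ring]
    linarith [ih h1]

/-- a trivial bound -/
theorem S_triv {f : ℝ → ℝ} (hf : Nice f) {X L t B : ℝ} (ht : 0 ≤ t) (hL : t ≤ L)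
    (hB : ∀ y z : ℝ, X ≤ y → y ≤ z → z ≤ X + L → |f z - f y| ≤ B * (z - y + 1)) (hB0 : 0 ≤ B) :
    S f X L t ≤ L * (B * (t + 1)) := by
  unfold S
  have h1 : ∫ y in X..(X + L - t), |f (y + t) - f y| ≤ ∫ y in X..(X + L - t), B * (t + 1) := by
    refine intervalIntegral.integral_mono_on (by linarith) ((nice_inc hf t).ii _ _)
      intervalIntegrable_const fun y hy => ?_
    have := hB y (y + t) hy.1 (by linarith) (by linarith [hy.2])
    rwa [add_sub_cancel_left] at this
  rw [intervalIntegral.integral_const, smul_eq_mul] at h1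
  refine h1.trans (mul_le_mul_of_nonneg_right (by linarith) (by positivity))

/-- a good base point -/
theorem base {f : ℝ → ℝ} (hf : Nice f) {X L A : ℝ} (hL : 0 < L)
    (hS : ∀ t : ℝ, 0 ≤ t → t ≤ L / 2 → S f X L t ≤ A) :
    ∃ x₀ : ℝ, X ≤ x₀ ∧ x₀ ≤ X + L / 2 ∧ ∫ y in x₀..(x₀ + L / 2), |f y - f x₀| ≤ A := by
  set μ : Measure ℝ := volume.restrict (Ioc X (X + L / 2)) with hμ
  set ν : Measure ℝ := volume.restrict (Ioc 0 (L / 2)) with hν
  set G : ℝ → ℝ → ℝ := fun x t => |f (x + t) - f x| with hG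
  obtain ⟨C, hC⟩ := hf.bd X (X + L)
  have hmeas : Measurable (Function.uncurry G) := by
    have h1 : Measurable fun p : ℝ × ℝ => f (p.1 + p.2) := hf.meas.comp (measurable_fst.add measurable_snd)
    have h2 : Measurable fun p : ℝ × ℝ => f p.1 := hf.meas.comp measurable_fst
    have : Function.uncurry G = fun p : ℝ × ℝ => |f (p.1 + p.2) - f p.1| := by
      ext p
      rfl
    rw [this]
    exact (h1.sub h2).abs
  have : IsFiniteMeasure μ := ⟨by rw [hμ]; simp⟩
  have : IsFiniteMeasure ν := ⟨by rw [hν]; simp⟩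
  have hprod : μ.prod ν = (volume : Measure (ℝ × ℝ)).restrict (Ioc X (X + L / 2) ×ˢ Ioc 0 (L / 2)) := by
    rw [hμ, hν, Measure.prod_restrict]
    rfl
  have hint : Integrable (Function.uncurry G) (μ.prod ν) := by
    refine Integrable.of_bound hmeas.aestronglyMeasurable (2 * C) ?_
    rw [hprod]
    refine (ae_restrict_mem (measurableSet_Ioc.prod measurableSet_Ioc)).mono fun p hp => ?_
    have h1 : p.1 ∈ Icc X (X + L) := ⟨hp.1.1.le, by linarith [hp.1.2]⟩
    have h2 : p.1 + p.2 ∈ Icc X (X + L) := ⟨by linarith [hp.1.1, hp.2.1], by linarith [hp.1.2, hp.2.2]⟩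
    show ‖|f (p.1 + p.2) - f p.1|‖ ≤ 2 * C
    rw [Real.norm_eq_abs, abs_abs]
    calc |f (p.1 + p.2) - f p.1| ≤ |f (p.1 + p.2)| + |f p.1| := abs_sub _ _
      _ ≤ C + C := add_le_add (hC _ h2) (hC _ h1)
      _ = 2 * C := by ring
  have hswap : ∫ x, ∫ t, G x t ∂ν ∂μ = ∫ t, ∫ x, G x t ∂μ ∂ν := integral_integral_swap hint
  have hin : ∀ t ∈ Ioc 0 (L / 2), ∫ x, G x t ∂μ ≤ A := by
    intro t ht
    refine le_trans ?_ (hS t ht.1.le ht.2)
    rw [hμ, ← intervalIntegral.integral_of_le (by linarith)]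
    unfold S
    rw [← intervalIntegral.integral_add_adjacent_intervals ((nice_inc hf t).ii X (X + L / 2))
      ((nice_inc hf t).ii (X + L / 2) (X + L - t))]
    have : 0 ≤ ∫ y in (X + L / 2)..(X + L - t), |f (y + t) - f y| :=
      intervalIntegral.integral_nonneg (by linarith [ht.2]) fun _ _ => abs_nonneg _
    linarith
  have hA : ∫ t, ∫ x, G x t ∂μ ∂ν ≤ A * (L / 2) := by
    have h1 : ∫ t, ∫ x, G x t ∂μ ∂ν ≤ ∫ t, A ∂ν := by
      refine integral_mono_ae hint.integral_prod_right (integrable_const A) ?_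
      exact (ae_restrict_mem measurableSet_Ioc).mono hin
    have h2 : ν.real univ = L / 2 := by
      rw [hν, measureReal_restrict_apply MeasurableSet.univ, univ_inter,
        Real.volume_real_Ioc_of_le (by linarith), sub_zero]
    rw [integral_const, h2, smul_eq_mul, mul_comm] at h1
    exact h1
  have hex : ∃ x ∈ Ioc X (X + L / 2), (∫ t, G x t ∂ν) ≤ ⨍ a in Ioc X (X + L / 2), (∫ t, G a t ∂ν) ∂volume := by
    refine exists_le_setAverage ?_ ?_ ?_
    · simp [hL]
    · simp
    · exact hint.integral_prod_left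
  obtain ⟨x, hx, hle⟩ := hex
  refine ⟨x, hx.1.le, hx.2, ?_⟩
  have e1 : ∫ y in x..(x + L / 2), |f y - f x| = ∫ t, G x t ∂ν := by
    rw [hν, ← intervalIntegral.integral_of_le (by linarith)]
    have := intervalIntegral.integral_comp_add_left (a := 0) (b := L / 2) (fun y => |f y - f x|) x
    rw [add_zero] at this
    rw [← this]
  rw [e1]
  refine hle.trans ?_
  rw [setAverage_eq, smul_eq_mul]
  have e2 : (volume.real (Ioc X (X + L / 2)))⁻¹ = (L / 2)⁻¹ := by
    rw [Real.volume_real_Ioc_of_le (by linarith)]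
    congr 1
    ring
  rw [e2]
  have e3 : ∫ a in Ioc X (X + L / 2), (∫ t, G a t ∂ν) ∂volume ≤ A * (L / 2) := by
    rw [← hμ, hswap]
    exact hA
  calc (L / 2)⁻¹ * ∫ a in Ioc X (X + L / 2), (∫ t, G a t ∂ν) ≤ (L / 2)⁻¹ * (A * (L / 2)) :=
        mul_le_mul_of_nonneg_left e3 (by positivity)
    _ = A := by field_simp

/-- all shifts, from a range of shifts -/
theorem all_range {f : ℝ → ℝ} (hf : Nice f) {X L B h₀ H₁ A : ℝ} (hB0 : 0 ≤ B) (hh : 0 < h₀)
    (hH : 2 * h₀ ≤ H₁) (hA : 0 ≤ A)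
    (hB : ∀ y z : ℝ, X ≤ y → y ≤ z → z ≤ X + L → |f z - f y| ≤ B * (z - y + 1))
    (hS : ∀ H : ℝ, h₀ ≤ H → H ≤ H₁ → H ≤ L → S f X L H ≤ A) (t : ℝ) (ht : 0 ≤ t) (htL : t ≤ L) :
    S f X L t ≤ L * (B * (h₀ + 1)) + (L / H₁ + 1) * A := by
  have hL : 0 ≤ L := ht.trans htL
  have hH0 : 0 < H₁ := by linarith
  have hp : 0 ≤ L * (B * (h₀ + 1)) := by positivity
  rcases le_total t h₀ with h1 | h1
  · have h2 := S_triv hf ht htL hB hB0
    have h3 : L * (B * (t + 1)) ≤ L * (B * (h₀ + 1)) := by gcongr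
    have h4 : 0 ≤ (L / H₁ + 1) * A := by positivity
    linarith
  · rcases le_total t H₁ with h2 | h2
    · have h3 := hS t h1 h2 htL
      have h4 : 0 ≤ L / H₁ * A := by positivity
      nlinarith
    · set n : ℕ := ⌈t / H₁⌉₊ with hn
      have ht1 : 1 ≤ t / H₁ := by rwa [one_le_div hH0]
      have hn1 : t / H₁ ≤ n := Nat.le_ceil _
      have hn2 : (n : ℝ) < t / H₁ + 1 := Nat.ceil_lt_add_one (by positivity)
      have hn0 : (0:ℝ) < n := by linarith
      have hn1' : (1:ℝ) ≤ n := by linarith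
      have ha : t / n ≤ H₁ := by
        rw [div_le_iff₀ hn0]
        rw [div_le_iff₀ hH0] at hn1
        linarith
      have hb : h₀ ≤ t / n := by
        rw [le_div_iff₀ hn0]
        have h5 : (n : ℝ) ≤ 2 * (t / H₁) := by linarith
        calc h₀ * n ≤ h₀ * (2 * (t / H₁)) := by gcongr
          _ = (2 * h₀) / H₁ * t := by field_simp
          _ ≤ 1 * t := by
            refine mul_le_mul_of_nonneg_right ?_ ht
            rwa [div_le_one hH0]
          _ = t := one_mul t
      have e : (n : ℝ) * (t / n) = t := by field_simp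
      have h6 := S_mul hf (X := X) (L := L) (t := t / n) (by positivity) n (by rw [e]; exact htL)
      rw [e] at h6
      have h7 : t / n ≤ L := (div_le_self ht hn1').trans htL
      have h8 := hS (t / n) hb ha h7
      calc S f X L t ≤ n * S f X L (t / n) := h6
        _ ≤ n * A := by gcongr
        _ ≤ (L / H₁ + 1) * A := by
          refine mul_le_mul_of_nonneg_right ?_ hA
          have : t / H₁ ≤ L / H₁ := by gcongr
          linarith
        _ ≤ _ := by linarith

/-- all shifts, from a single shift -/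
theorem all_one {f : ℝ → ℝ} (hf : Nice f) {X L B H A : ℝ} (hB0 : 0 ≤ B) (hH : 0 < H) (hHL : H ≤ L)
    (hB : ∀ y z : ℝ, X ≤ y → y ≤ z → z ≤ X + L → |f z - f y| ≤ B * (z - y + 1))
    (hS : S f X L H ≤ A) (t : ℝ) (ht : 0 ≤ t) (htL : t ≤ L) :
    S f X L t ≤ L * (B * (H + 1)) + L / H * A := by
  have hL : 0 ≤ L := ht.trans htL
  have hA : 0 ≤ A := (S_nonneg hHL).trans hS
  set n : ℕ := ⌊t / H⌋₊ with hn
  have hn1 : (n : ℝ) ≤ t / H := Nat.floor_le (by positivity)
  have hn2 : t / H < n + 1 := Nat.lt_floor_add_one _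
  have hnH : (n : ℝ) * H ≤ t := by rwa [le_div_iff₀ hH] at hn1
  have hr : t - n * H ≤ H := by
    rw [div_lt_iff₀ hH] at hn2
    linarith
  have h1 := S_add hf (X := X) (L := L) (s := n * H) (t := t - n * H) (by positivity) (by linarith)
    (by linarith)
  rw [add_sub_cancel] at h1
  have h2 := S_mul hf (X := X) (L := L) (t := H) hH.le n (by linarith)
  have h3 := S_triv hf (X := X) (L := L) (t := t - n * H) (by linarith) (by linarith [mul_nonneg (Nat.cast_nonneg (α := ℝ) n) hH.le]) hB hB0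
  have h4 : L * (B * (t - n * H + 1)) ≤ L * (B * (H + 1)) := by gcongr
  have h5 : (n : ℝ) * S f X L H ≤ L / H * A := by
    calc (n : ℝ) * S f X L H ≤ n * A := by gcongr
      _ ≤ L / H * A := by
        refine mul_le_mul_of_nonneg_right ?_ hA
        exact hn1.trans (by gcongr)
  linarith

end Pool.Agent.Q32.Si
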