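import Pool.Agent.Q32.Si.A
import Pool.Agent.W190.A16

set_option autoImplicit false

/-! # Mean increments and zero-free half-planes -/

open Filter Topology Set MeasureTheory

namespace Pool.Agent.Q32.Si

open Pool.Agent.W190 (SF)

/-- no zeros to the right of `θ` -/
def ZF (θ : ℝ) : Prop := ∀ s : ℂ, θ < s.re → riemannZeta s ≠ 0

/-- growth condition for increments -/
def Gr (f : ℝ → ℝ) : Prop := ∀ X : ℝ, 1 ≤ X → ∀ y z : ℝ, X ≤ y → y ≤ z → z ≤ 2 * X →
  |f z - f y| ≤ (Real.log X + 3) * (z - y + 1)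

/-- lower bounds on windows -/
def Win (f : ℝ → ℝ) : Prop := ∀ θ : ℝ, 1 / 2 ≤ θ → (∃ s : ℂ, riemannZeta s = 0 ∧ θ < s.re) →
  ∀ᶠ x : ℝ in atTop, ∀ c : ℝ, x ^ (1 + θ) < ∫ y in x..(x + x / 5), |f y - c|

/-- from the base point to the window -/
theorem force {f : ℝ → ℝ} (hf : Nice f) {θ : ℝ} (hθ : 0 ≤ θ)
    (hw : ∀ᶠ x : ℝ in atTop, ∀ c : ℝ, x ^ (1 + θ) < ∫ y in x..(x + x / 5), |f y - c|) :
    ∀ᶠ X : ℝ in atTop, ∀ A : ℝ, (∀ t : ℝ, 0 ≤ t → t ≤ X / 2 → S f X (X / 2) t ≤ A) → X ^ (1 + θ) < A := by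
  obtain ⟨x₁, hx₁⟩ := hw.exists_forall_of_atTop
  filter_upwards [eventually_ge_atTop (max x₁ 1)] with X hX A hA
  have hX1 : 1 ≤ X := (le_max_right _ _).trans hX
  obtain ⟨x₀, h1, h2, h3⟩ := base hf (X := X) (L := X / 2) (A := A) (by linarith)
    (fun t ht htL => hA t ht (by linarith))
  have h4 := hx₁ x₀ (((le_max_left _ _).trans hX).trans h1) (f x₀)
  have hi := fun a b => ((hf.sub ⟨measurable_const, fun _ _ => ⟨|f x₀|, fun _ _ => le_rfl⟩⟩ :
    Nice (fun y => f y - f x₀)).abs).ii a b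
  have h5 : ∫ y in x₀..(x₀ + x₀ / 5), |f y - f x₀| ≤ ∫ y in x₀..(x₀ + X / 2 / 2), |f y - f x₀| := by
    rw [← intervalIntegral.integral_add_adjacent_intervals (hi x₀ (x₀ + x₀ / 5))
      (hi (x₀ + x₀ / 5) (x₀ + X / 2 / 2))]
    have : 0 ≤ ∫ y in (x₀ + x₀ / 5)..(x₀ + X / 2 / 2), |f y - f x₀| :=
      intervalIntegral.integral_nonneg (by linarith) fun _ _ => abs_nonneg _
    linarith
  have h6 : X ^ (1 + θ) ≤ x₀ ^ (1 + θ) := Real.rpow_le_rpow (by linarith) h1 (by linarith)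
  linarith

/-- elementary growth facts -/
theorem ev_pow {d : ℝ} (hd : 0 < d) (C : ℝ) : ∀ᶠ X : ℝ in atTop, C ≤ X ^ d :=
  (tendsto_rpow_atTop hd).eventually_ge_atTop C

theorem ev_log {d : ℝ} (hd : 0 < d) : ∀ᶠ X : ℝ in atTop, Real.log X + 3 ≤ X ^ d := by
  have h1 : Tendsto (fun X : ℝ => X ^ (d / 2)) atTop atTop := tendsto_rpow_atTop (by linarith)
  filter_upwards [h1.eventually_ge_atTop (2 * (2 / d)), h1.eventually_ge_atTop 6, eventually_ge_atTop 1]
    with X h2 h3 h4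
  have h5 : Real.log X ≤ X ^ (d / 2) / (d / 2) := Real.log_le_rpow_div (by linarith) (by linarith)
  have e : X ^ d = X ^ (d / 2) * X ^ (d / 2) := by
    rw [← Real.rpow_add (by linarith)]
    congr 1
    ring
  rw [e]
  have h6 : X ^ (d / 2) / (d / 2) = 2 / d * X ^ (d / 2) := by field_simp
  rw [h6] at h5
  have h7 : 0 < X ^ (d / 2) := by linarith
  have h8 : 2 / d * X ^ (d / 2) ≤ X ^ (d / 2) / 2 * X ^ (d / 2) :=
    mul_le_mul_of_nonneg_right (by linarith) h7.le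
  nlinarith

/-- **a range of shifts, on a sparse sequence** -/
theorem zf_range {f : ℝ → ℝ} (hf : Nice f) (hg : Gr f) (hw : Win f) {Θ : ℝ} (h0 : 1 / 2 ≤ Θ) (h1 : Θ < 1)
    (h : ∀ ε : ℝ, 0 < ε → ∃ᶠ X : ℝ in atTop, ∀ H : ℝ, X ^ Θ ≤ H → H ≤ X ^ (1 - ε) → H ≤ X / 2 →
      S f X (X / 2) H ≤ X ^ (1 + Θ + ε)) : ZF Θ := by
  intro s hs hz
  have hs1 : s.re < 1 := by
    by_contra hc
    exact riemannZeta_ne_zero_of_one_le_re (not_lt.1 hc) hz
  set θ : ℝ := (Θ + s.re) / 2 with hθ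
  set ε : ℝ := (θ - Θ) / 4 with hε
  have hε0 : 0 < ε := by rw [hε, hθ]; linarith
  have hε1 : Θ < 1 - ε := by rw [hε, hθ]; linarith
  have hwin := force hf (by linarith : 0 ≤ θ) (hw θ (by linarith) ⟨s, hz, by linarith⟩)
  obtain ⟨X, hX, a1, a2, a3, a4, a5, a6⟩ := ((h ε hε0).and_eventually (hwin.and
    ((eventually_ge_atTop 1).and ((ev_pow (show 0 < 1 - ε - Θ by linarith) 2).and
      ((ev_pow hε0 2).and ((ev_log hε0).and (ev_pow (show 0 < 2 * ε by linarith) 2))))))).exists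
  have hX0 : 0 < X := by linarith
  have key := a1 _ (fun t ht htL => all_range hf (X := X) (L := X / 2) (B := Real.log X + 3)
    (h₀ := X ^ Θ) (H₁ := X ^ (1 - ε)) (A := X ^ (1 + Θ + ε))
    (by have := Real.log_nonneg a2; linarith) (by positivity)
    (by
      have e : X ^ (1 - ε) = X ^ (1 - ε - Θ) * X ^ Θ := by
        rw [← Real.rpow_add hX0]; congr 1; ring
      rw [e]
      exact mul_le_mul_of_nonneg_right a3 (by positivity)) (by positivity)
    (fun y z hy hyz hz => hg X a2 y z hy hyz (by linarith))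
    (fun H hH1 hH2 hH3 => hX H hH1 hH2 hH3) t ht htL)
  have b1 : X / 2 * ((Real.log X + 3) * (X ^ Θ + 1)) ≤ X ^ (1 + Θ + 2 * ε) := by
    have c1 : X ^ Θ + 1 ≤ 2 * X ^ Θ := by
      have := Real.one_le_rpow a2 (show 0 ≤ Θ by linarith)
      linarith
    calc X / 2 * ((Real.log X + 3) * (X ^ Θ + 1)) ≤ X / 2 * (X ^ ε * (2 * X ^ Θ)) := by
          have := Real.log_nonneg a2
          gcongr
      _ = X ^ (1:ℝ) * (X ^ ε * X ^ Θ) := by rw [Real.rpow_one]; ring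
      _ = X ^ (1 + Θ + ε) := by
          rw [← Real.rpow_add hX0, ← Real.rpow_add hX0]; congr 1; ring
      _ ≤ X ^ (1 + Θ + 2 * ε) := Real.rpow_le_rpow_of_exponent_le a2 (by linarith)
  have b2 : (X / 2 / X ^ (1 - ε) + 1) * X ^ (1 + Θ + ε) ≤ X ^ (1 + Θ + 2 * ε) := by
    have c1 : X / 2 / X ^ (1 - ε) = X ^ ε / 2 := by
      have : X ^ ε * X ^ (1 - ε) = X := by
        rw [← Real.rpow_add hX0]
        rw [show ε + (1 - ε) = 1 by ring, Real.rpow_one]
      field_simp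
      linarith
    rw [c1]
    calc (X ^ ε / 2 + 1) * X ^ (1 + Θ + ε) ≤ X ^ ε * X ^ (1 + Θ + ε) := by gcongr; linarith
      _ = X ^ (1 + Θ + 2 * ε) := by
          rw [← Real.rpow_add hX0]; congr 1; ring
  have b3 : 2 * X ^ (1 + Θ + 2 * ε) ≤ X ^ (1 + θ) := by
    have e : X ^ (1 + θ) = X ^ (2 * ε) * X ^ (1 + Θ + 2 * ε) := by
      rw [← Real.rpow_add hX0]
      congr 1
      rw [hε]
      ring
    rw [e]
    exact mul_le_mul_of_nonneg_right a6 (by positivity)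
  linarith

/-- **a single shift, on a sparse sequence** -/
theorem zf_one {f : ℝ → ℝ} (hf : Nice f) (hg : Gr f) (hw : Win f) {Θ : ℝ} (h0 : 1 / 2 ≤ Θ)
    (h : ∀ ε : ℝ, 0 < ε → ∃ᶠ X : ℝ in atTop, ∃ H : ℝ, 0 < H ∧ H ≤ X ^ Θ ∧ H ≤ X / 2 ∧
      S f X (X / 2) H ≤ H * X ^ (Θ + ε)) : ZF Θ := by
  intro s hs hz
  have hs1 : s.re < 1 := by
    by_contra hc
    exact riemannZeta_ne_zero_of_one_le_re (not_lt.1 hc) hz
  set θ : ℝ := (Θ + s.re) / 2 with hθ
  set ε : ℝ := (θ - Θ) / 4 with hε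
  have hε0 : 0 < ε := by rw [hε, hθ]; linarith
  have hwin := force hf (by linarith : 0 ≤ θ) (hw θ (by linarith) ⟨s, hz, by linarith⟩)
  obtain ⟨X, ⟨H, hH0, hH1, hH2, hX⟩, a1, a2, a4, a5, a6⟩ := ((h ε hε0).and_eventually (hwin.and
    ((eventually_ge_atTop 1).and
      ((ev_pow hε0 2).and ((ev_log hε0).and (ev_pow (show 0 < 2 * ε by linarith) 2)))))).exists
  have hX0 : 0 < X := by linarith
  have hl := Real.log_nonneg a2
  have key := a1 _ (fun t ht htL => all_one hf (X := X) (L := X / 2) (B := Real.log X + 3)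
    (H := H) (A := H * X ^ (Θ + ε)) (by linarith) hH0 hH2
    (fun y z hy hyz hz => hg X a2 y z hy hyz (by linarith)) hX t ht htL)
  have b1 : X / 2 * ((Real.log X + 3) * (H + 1)) ≤ X ^ (1 + Θ + 2 * ε) := by
    have c1 : H + 1 ≤ 2 * X ^ Θ := by
      have := Real.one_le_rpow a2 (show 0 ≤ Θ by linarith)
      linarith
    calc X / 2 * ((Real.log X + 3) * (H + 1)) ≤ X / 2 * (X ^ ε * (2 * X ^ Θ)) := by
          gcongr
      _ = X ^ (1:ℝ) * (X ^ ε * X ^ Θ) := by rw [Real.rpow_one]; ring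
      _ = X ^ (1 + Θ + ε) := by
          rw [← Real.rpow_add hX0, ← Real.rpow_add hX0]; congr 1; ring
      _ ≤ X ^ (1 + Θ + 2 * ε) := Real.rpow_le_rpow_of_exponent_le a2 (by linarith)
  have b2 : X / 2 / H * (H * X ^ (Θ + ε)) ≤ X ^ (1 + Θ + 2 * ε) := by
    calc X / 2 / H * (H * X ^ (Θ + ε)) = 1 / 2 * (X * X ^ (Θ + ε)) := by field_simp
      _ ≤ 1 * (X ^ (1:ℝ) * X ^ (Θ + ε)) := by
          rw [Real.rpow_one]
          gcongr
          norm_num
      _ = X ^ (1 + (Θ + ε)) := by rw [one_mul, ← Real.rpow_add hX0]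
      _ ≤ X ^ (1 + Θ + 2 * ε) := Real.rpow_le_rpow_of_exponent_le a2 (by linarith)
  have b3 : 2 * X ^ (1 + Θ + 2 * ε) ≤ X ^ (1 + θ) := by
    have e : X ^ (1 + θ) = X ^ (2 * ε) * X ^ (1 + Θ + 2 * ε) := by
      rw [← Real.rpow_add hX0]
      congr 1
      rw [hε]
      ring
    rw [e]
    exact mul_le_mul_of_nonneg_right a6 (by positivity)
  linarith

/-! ## summatory functions -/

theorem SF_nice (a : ℕ → ℝ) : Nice (SF a) where
  meas := by
    have : SF a = (fun n : ℕ => ∑ k ∈ Finset.Icc 1 n, a k) ∘ (fun t : ℝ => ⌊t⌋₊) := rfl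
    rw [this]
    exact (measurable_from_nat).comp Nat.measurable_floor
  bd p q := by
    refine ⟨∑ n ∈ Finset.Icc 1 ⌊q⌋₊, |a n|, fun y hy => ?_⟩
    unfold SF
    refine (Finset.abs_sum_le_sum_abs _ _).trans ?_
    refine Finset.sum_le_sum_of_subset_of_nonneg ?_ fun _ _ _ => abs_nonneg _
    exact Finset.Icc_subset_Icc le_rfl (Nat.floor_mono hy.2)

theorem SF_sub (a : ℕ → ℝ) {y z : ℝ} (hyz : y ≤ z) :
    SF a z - SF a y = ∑ n ∈ Finset.Ioc ⌊y⌋₊ ⌊z⌋₊, a n := by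
  unfold SF
  have hI : ∀ N : ℕ, Finset.Icc 1 N = Finset.Ioc 0 N := fun N => by ext; simp [Nat.succ_le_iff]
  rw [hI, hI, ← Finset.sum_Ioc_consecutive a (Nat.zero_le ⌊y⌋₊) (Nat.floor_mono hyz)]
  ring

theorem SF_inc (a : ℕ → ℝ) {y z C : ℝ} (hy : 0 ≤ y) (hyz : y ≤ z) (hC : ∀ n : ℕ, (n : ℝ) ≤ z → |a n| ≤ C)
    (hC0 : 0 ≤ C) : |SF a z - SF a y| ≤ C * (z - y + 1) := by
  rw [SF_sub a hyz]
  refine (Finset.abs_sum_le_sum_abs _ _).trans ?_
  refine (Finset.sum_le_sum fun n hn => hC n ?_).trans ?_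
  · exact (Nat.le_floor_iff (hy.trans hyz)).1 (Finset.mem_Ioc.1 hn).2
  · rw [Finset.sum_const, Nat.card_Ioc, nsmul_eq_mul, mul_comm]
    refine mul_le_mul_of_nonneg_left ?_ hC0
    rw [Nat.cast_sub (Nat.floor_mono hyz)]
    have h1 := Nat.floor_le (hy.trans hyz)
    have h2 := Nat.lt_floor_add_one y
    linarith

/-- sums over intervals around `x` with any convention at the end points -/
theorem short_sum (a : ℕ → ℝ) {x H C : ℝ} (hH : 0 ≤ H) (hx : 0 ≤ x - H / 2)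
    (hC : ∀ n : ℕ, (n : ℝ) ≤ x + H / 2 → |a n| ≤ C) (hC0 : 0 ≤ C) (T : Finset ℕ)
    (hT1 : ∀ n : ℕ, x - H / 2 < n → (n : ℝ) < x + H / 2 → n ∈ T)
    (hT2 : ∀ n ∈ T, x - H / 2 ≤ n ∧ (n : ℝ) ≤ x + H / 2) :
    |(SF a (x + H / 2) - SF a (x - H / 2)) - ∑ n ∈ T, a n| ≤ 2 * C := by
  classical
  have hxx : 0 ≤ x + H / 2 := by linarith
  rw [SF_sub a (by linarith)]
  set J := Finset.Ioc ⌊x - H / 2⌋₊ ⌊x + H / 2⌋₊ with hJ
  have hmem : ∀ n : ℕ, n ∈ J ↔ x - H / 2 < n ∧ (n : ℝ) ≤ x + H / 2 := by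
    intro n
    rw [hJ, Finset.mem_Ioc, Nat.floor_lt hx, Nat.le_floor_iff hxx]
  have e1 : ∑ n ∈ J, a n = ∑ n ∈ J \ T, a n + ∑ n ∈ J ∩ T, a n := by
    rw [add_comm]
    exact (Finset.sum_inter_add_sum_sdiff _ _ _).symm
  have e2 : ∑ n ∈ T, a n = ∑ n ∈ T \ J, a n + ∑ n ∈ J ∩ T, a n := by
    rw [add_comm, Finset.inter_comm]
    exact (Finset.sum_inter_add_sum_sdiff _ _ _).symm
  have one : ∀ (R : Finset ℕ) (v : ℝ), (∀ n ∈ R, (n : ℝ) = v ∧ (n : ℝ) ≤ x + H / 2) → |∑ n ∈ R, a n| ≤ C := by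
    intro R v hR
    rcases R.eq_empty_or_nonempty with h | ⟨m, hm⟩
    · rw [h]; simpa using hC0
    · have : R = {m} := by
        rw [Finset.eq_singleton_iff_unique_mem]
        refine ⟨hm, fun n hn => ?_⟩
        have := (hR n hn).1.trans (hR m hm).1.symm
        exact_mod_cast this
      rw [this, Finset.sum_singleton]
      exact hC m (hR m hm).2
  have h1 : |∑ n ∈ J \ T, a n| ≤ C := by
    refine one _ (x + H / 2) fun n hn => ?_
    rw [Finset.mem_sdiff, hmem] at hn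
    refine ⟨?_, hn.1.2⟩
    by_contra hne
    exact hn.2 (hT1 n hn.1.1 (lt_of_le_of_ne hn.1.2 hne))
  have h2 : |∑ n ∈ T \ J, a n| ≤ C := by
    refine one _ (x - H / 2) fun n hn => ?_
    rw [Finset.mem_sdiff, hmem] at hn
    have h3 := hT2 n hn.1
    refine ⟨?_, h3.2⟩
    by_contra hne
    exact hn.2 ⟨lt_of_le_of_ne h3.1 (Ne.symm hne), h3.2⟩
  rw [e1, e2]
  calc |∑ n ∈ J \ T, a n + ∑ n ∈ J ∩ T, a n - (∑ n ∈ T \ J, a n + ∑ n ∈ J ∩ T, a n)|
      = |∑ n ∈ J \ T, a n - ∑ n ∈ T \ J, a n| := by congr 1; ring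
    _ ≤ |∑ n ∈ J \ T, a n| + |∑ n ∈ T \ J, a n| := abs_sub _ _
    _ ≤ 2 * C := by linarith

/-- Cauchy-Schwarz -/
theorem L1L2 {g : ℝ → ℝ} (hg : Nice g) {p q v : ℝ} (hpq : p ≤ q) (hv : 0 < v)
    (h : ∫ x in p..q, g x ^ 2 ≤ (q - p) * v ^ 2) : ∫ x in p..q, |g x| ≤ (q - p) * v := by
  have h2 : ∫ x in p..q, |g x| ≤ ∫ x in p..q, (1 / (2 * v) * g x ^ 2 + v / 2) := by
    refine intervalIntegral.integral_mono_on hpq (hg.abs.ii _ _)
      ((hg.sq.ii _ _).const_mul _ |>.add intervalIntegrable_const) fun x _ => ?_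
    rw [← sq_abs (g x)]
    set w := |g x|
    have e : 1 / (2 * v) * w ^ 2 + v / 2 - w = (w - v) ^ 2 / (2 * v) := by
      field_simp
      ring
    have : 0 ≤ (w - v) ^ 2 / (2 * v) := by positivity
    linarith
  rw [intervalIntegral.integral_add ((hg.sq.ii _ _).const_mul _) intervalIntegrable_const,
    intervalIntegral.integral_const_mul, intervalIntegral.integral_const, smul_eq_mul] at h2
  have h3 : 1 / (2 * v) * ∫ x in p..q, g x ^ 2 ≤ 1 / (2 * v) * ((q - p) * v ^ 2) :=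
    mul_le_mul_of_nonneg_left h (by positivity)
  have e : 1 / (2 * v) * ((q - p) * v ^ 2) = (q - p) * v / 2 := by field_simp
  linarith

/-- finite sums of truncated terms are nice -/
theorem nice_sum (a : ℕ → ℝ) (N : ℕ) (P : ℕ → ℝ → Prop) [∀ n x, Decidable (P n x)]
    (hP : ∀ n, MeasurableSet {x | P n x}) : Nice (fun x => ∑ n ∈ Finset.range N, if P n x then a n else 0) where
  meas := Finset.measurable_sum _ fun n _ => Measurable.ite (hP n) measurable_const measurable_const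
  bd p q := by
    refine ⟨∑ n ∈ Finset.range N, |a n|, fun x _ => ?_⟩
    refine (Finset.abs_sum_le_sum_abs _ _).trans (Finset.sum_le_sum fun n _ => ?_)
    split_ifs
    · exact le_rfl
    · simp

/-- from means of short sums to mean increments -/
theorem S_of_mean {f g : ℝ → ℝ} (hf : Nice f) (hg : Nice g) {X H D : ℝ} (hH : 0 ≤ H) (hHX : H ≤ X / 2)
    (hD : ∀ x : ℝ, X ≤ x → x ≤ 2 * X → |f (x + H / 2) - f (x - H / 2)| ≤ |g x| + D) (hD0 : 0 ≤ D) :
    S f X (X / 2) H ≤ (∫ x in X..(2 * X), |g x|) + D * X := by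
  have hX : 0 ≤ X := by linarith
  unfold S
  have e : ∫ y in X..(X + X / 2 - H), |f (y + H) - f y| =
      ∫ x in (X + H / 2)..(X + X / 2 - H / 2), |f (x + H / 2) - f (x - H / 2)| := by
    have := intervalIntegral.integral_comp_add_right (a := X) (b := X + X / 2 - H)
      (fun x => |f (x + H / 2) - f (x - H / 2)|) (H / 2)
    rw [show X + X / 2 - H + H / 2 = X + X / 2 - H / 2 by ring] at this
    rw [← this]
    refine intervalIntegral.integral_congr fun y _ => ?_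
    rw [show y + H / 2 + H / 2 = y + H by ring, show y + H / 2 - H / 2 = y by ring]
  rw [e]
  have hn1 : Nice (fun x => |f (x + H / 2) - f (x - H / 2)|) := by
    have := ((hf.shift (H / 2)).sub (hf.shift (-(H / 2)))).abs
    simpa [sub_eq_add_neg] using this
  have h1 : ∫ x in (X + H / 2)..(X + X / 2 - H / 2), |f (x + H / 2) - f (x - H / 2)| ≤
      ∫ x in (X + H / 2)..(X + X / 2 - H / 2), (|g x| + D) := by
    refine intervalIntegral.integral_mono_on (by linarith) (hn1.ii _ _)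
      ((hg.abs.ii _ _).add intervalIntegrable_const) fun x hx => hD x (by linarith [hx.1]) (by linarith [hx.2])
  rw [intervalIntegral.integral_add (hg.abs.ii _ _) intervalIntegrable_const,
    intervalIntegral.integral_const, smul_eq_mul] at h1
  have h2 : ∫ x in (X + H / 2)..(X + X / 2 - H / 2), |g x| ≤ ∫ x in X..(2 * X), |g x| := by
    rw [← intervalIntegral.integral_add_adjacent_intervals (hg.abs.ii X (X + H / 2))
      (hg.abs.ii (X + H / 2) (2 * X)),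
      ← intervalIntegral.integral_add_adjacent_intervals (hg.abs.ii (X + H / 2) (X + X / 2 - H / 2))
      (hg.abs.ii (X + X / 2 - H / 2) (2 * X))]
    have i1 : 0 ≤ ∫ x in X..(X + H / 2), |g x| :=
      intervalIntegral.integral_nonneg (by linarith) fun _ _ => abs_nonneg _
    have i2 : 0 ≤ ∫ x in (X + X / 2 - H / 2)..(2 * X), |g x| :=
      intervalIntegral.integral_nonneg (by linarith) fun _ _ => abs_nonneg _
    linarith
  have h3 : (X + X / 2 - H / 2 - (X + H / 2)) * D ≤ D * X := by nlinarith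
  linarith

end Pool.Agent.Q32.Si
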