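import Pool.Agent.Q32.Si.M

set_option autoImplicit false

/-! # Short sums in mean and zero-free half-planes -/

open Filter Topology Set MeasureTheory

namespace Pool.Agent.Q32.Si

/-- `m x H` is the increment of `f` over the interval of length `H` centred at `x`, up to end points -/
structure Short (f : ℝ → ℝ) (m : ℝ → ℝ → ℝ) : Prop where
  rep : ∀ X H : ℝ, 0 ≤ H → ∃ g : ℝ → ℝ, Nice g ∧ ∀ x ∈ Icc 0 (2 * X), m x H = g x
  close : ∀ X : ℝ, 2 ≤ X → ∀ H : ℝ, 0 ≤ H → H ≤ X → ∀ x : ℝ, X ≤ x → x ≤ 2 * X →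
    |(f (x + H / 2) - f (x - H / 2)) - m x H| ≤ 2 * (Real.log X + 3)

variable {f : ℝ → ℝ} {m : ℝ → ℝ → ℝ}

theorem Short.S_le (hs : Short f m) (hf : Nice f) {X H : ℝ} (hX : 2 ≤ X) (hH : 0 ≤ H) (hHX : H ≤ X / 2) :
    S f X (X / 2) H ≤ (∫ x in X..(2 * X), |m x H|) + 2 * (Real.log X + 3) * X := by
  obtain ⟨g, hg, hgm⟩ := hs.rep X H hH
  have hl := Real.log_nonneg (by linarith : (1:ℝ) ≤ X)
  have h1 := S_of_mean (f := f) (g := g) hf hg (X := X) (H := H) (D := 2 * (Real.log X + 3)) hH hHX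
    (fun x hx1 hx2 => by
      have h2 := hs.close X hX H hH (by linarith) x hx1 hx2
      rw [hgm x ⟨by linarith, hx2⟩] at h2
      have h3 := abs_add_le ((f (x + H / 2) - f (x - H / 2)) - g x) (g x)
      rw [sub_add_cancel] at h3
      linarith) (by positivity)
  have e : ∫ x in X..(2 * X), |m x H| = ∫ x in X..(2 * X), |g x| := by
    refine intervalIntegral.integral_congr fun x hx => ?_
    rw [uIcc_of_le (by linarith)] at hx
    rw [hgm x ⟨by linarith [hx.1], hx.2⟩]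
  rw [e]
  exact h1

theorem Short.L1L2 (hs : Short f m) {X H v : ℝ} (hX : 0 ≤ X) (hH : 0 ≤ H) (hv : 0 < v)
    (h : ∫ x in X..(2 * X), m x H ^ 2 ≤ X * v ^ 2) : ∫ x in X..(2 * X), |m x H| ≤ X * v := by
  obtain ⟨g, hg, hgm⟩ := hs.rep X H hH
  have e : ∫ x in X..(2 * X), |m x H| = ∫ x in X..(2 * X), |g x| := by
    refine intervalIntegral.integral_congr fun x hx => ?_
    rw [uIcc_of_le (by linarith)] at hx
    rw [hgm x ⟨by linarith [hx.1], hx.2⟩]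
  have e2 : ∫ x in X..(2 * X), m x H ^ 2 = ∫ x in X..(2 * X), g x ^ 2 := by
    refine intervalIntegral.integral_congr fun x hx => ?_
    rw [uIcc_of_le (by linarith)] at hx
    rw [hgm x ⟨by linarith [hx.1], hx.2⟩]
  rw [e]
  rw [e2] at h
  have := Pool.Agent.Q32.Si.L1L2 hg (p := X) (q := 2 * X) (by linarith) hv
    (by rw [show 2 * X - X = X by ring]; exact h)
  rwa [show 2 * X - X = X by ring] at this

/-- a range of lengths, first moments -/
theorem zf_of_mean (hs : Short f m) (hf : Nice f) (hg : Gr f) (hw : Win f) {Θ : ℝ} (h0 : 1 / 2 ≤ Θ)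
    (h1 : Θ < 1) (h : ∀ ε : ℝ, 0 < ε → ∃ᶠ X : ℝ in atTop, ∀ H : ℝ, X ^ Θ ≤ H → H ≤ X ^ (1 - ε) →
      ∫ x in X..(2 * X), |m x H| ≤ X ^ (1 + Θ + ε)) : ZF Θ := by
  refine zf_range hf hg hw h0 h1 fun ε hε => ?_
  have h2 := (h (ε / 2) (by linarith)).and_eventually ((eventually_ge_atTop 2).and
    ((ev_log (show 0 < Θ by linarith)).and (ev_pow (show 0 < ε / 2 by linarith) 3)))
  refine h2.mono ?_
  rintro X ⟨a1, a2, a3, a4⟩ H b1 b2 b3
  have hX0 : 0 < X := by linarith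
  have hX1 : 1 ≤ X := by linarith
  have hH0 : 0 ≤ H := (Real.rpow_nonneg hX0.le _).trans b1
  have c1 := hs.S_le hf a2 hH0 b3
  have c2 := a1 H b1 (b2.trans (Real.rpow_le_rpow_of_exponent_le hX1 (by linarith)))
  have c3 : (Real.log X + 3) * X ≤ X ^ (1 + Θ) := by
    rw [Real.rpow_add hX0, Real.rpow_one, mul_comm X]
    exact mul_le_mul_of_nonneg_right a3 hX0.le
  have c4 : X ^ (1 + Θ) ≤ X ^ (1 + Θ + ε / 2) := Real.rpow_le_rpow_of_exponent_le hX1 (by linarith)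
  have c5 : 3 * X ^ (1 + Θ + ε / 2) ≤ X ^ (1 + Θ + ε) := by
    have e : X ^ (1 + Θ + ε) = X ^ (ε / 2) * X ^ (1 + Θ + ε / 2) := by
      rw [← Real.rpow_add hX0]; congr 1; ring
    rw [e]
    exact mul_le_mul_of_nonneg_right a4 (by positivity)
  linarith

/-- a range of lengths, second moments -/
theorem zf_of_var (hs : Short f m) (hf : Nice f) (hg : Gr f) (hw : Win f) {Θ : ℝ} (h0 : 1 / 2 ≤ Θ)
    (h1 : Θ < 1) (h : ∀ ε : ℝ, 0 < ε → ∃ᶠ X : ℝ in atTop, ∀ H : ℝ, X ^ Θ ≤ H → H ≤ X ^ (1 - ε) →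
      ∫ x in X..(2 * X), m x H ^ 2 ≤ X ^ (1 + 2 * Θ + ε)) : ZF Θ := by
  refine zf_of_mean hs hf hg hw h0 h1 fun ε hε => ?_
  refine ((h ε hε).and_eventually (eventually_ge_atTop 1)).mono ?_
  rintro X ⟨a1, a2⟩ H b1 b2
  have hX0 : 0 < X := by linarith
  have hH0 : 0 ≤ H := (Real.rpow_nonneg hX0.le _).trans b1
  have c := hs.L1L2 (X := X) (H := H) (v := X ^ (Θ + ε / 2)) hX0.le hH0 (by positivity) (by
    refine (a1 H b1 b2).trans (le_of_eq ?_)
    rw [← Real.rpow_natCast (X ^ (Θ + ε / 2)) 2, ← Real.rpow_mul hX0.le]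
    nth_rewrite 2 [← Real.rpow_one X]
    rw [← Real.rpow_add hX0]
    congr 1
    push_cast
    ring)
  refine c.trans ?_
  nth_rewrite 1 [← Real.rpow_one X]
  rw [← Real.rpow_add hX0]
  exact Real.rpow_le_rpow_of_exponent_le a2 (by linarith)

/-- one length, first moments -/
theorem zf_of_one_mean (hs : Short f m) (hf : Nice f) (hg : Gr f) (hw : Win f) {Θ : ℝ} (h0 : 1 / 2 ≤ Θ)
    (h1 : Θ < 1) (h : ∀ ε : ℝ, 0 < ε → ∃ᶠ X : ℝ in atTop, ∃ H : ℝ, X ^ (1 - Θ) ≤ H ∧ H ≤ X ^ Θ ∧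
      ∫ x in X..(2 * X), |m x H| ≤ H * X ^ (Θ + ε)) : ZF Θ := by
  refine zf_one hf hg hw h0 fun ε hε => ?_
  have h2 := (h (ε / 2) (by linarith)).and_eventually ((eventually_ge_atTop 2).and
    ((ev_log (show 0 < ε / 2 by linarith)).and
      ((ev_pow (show 0 < ε / 2 by linarith) 3).and (ev_pow (show 0 < 1 - Θ by linarith) 2))))
  refine h2.mono ?_
  rintro X ⟨⟨H, b1, b2, b3⟩, a2, a3, a4, a5⟩
  have hX0 : 0 < X := by linarith
  have hX1 : 1 ≤ X := by linarith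
  have hH0 : 0 < H := (Real.rpow_pos_of_pos hX0 _).trans_le b1
  have hHX : H ≤ X / 2 := by
    refine b2.trans ?_
    have e : X ^ (1 - Θ) * X ^ Θ = X := by
      rw [← Real.rpow_add hX0, sub_add_cancel, Real.rpow_one]
    have : 2 * X ^ Θ ≤ X ^ (1 - Θ) * X ^ Θ := mul_le_mul_of_nonneg_right a5 (by positivity)
    linarith
  refine ⟨H, hH0, b2, hHX, ?_⟩
  have c1 := hs.S_le hf a2 hH0.le hHX
  have c3 : (Real.log X + 3) * X ≤ H * X ^ (Θ + ε / 2) := by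
    calc (Real.log X + 3) * X ≤ X ^ (ε / 2) * X := mul_le_mul_of_nonneg_right a3 hX0.le
      _ = X ^ (1 - Θ) * X ^ (Θ + ε / 2) := by
        nth_rewrite 2 [← Real.rpow_one X]
        rw [← Real.rpow_add hX0, ← Real.rpow_add hX0]
        congr 1
        ring
      _ ≤ H * X ^ (Θ + ε / 2) := mul_le_mul_of_nonneg_right b1 (by positivity)
  have c5 : 3 * (H * X ^ (Θ + ε / 2)) ≤ H * X ^ (Θ + ε) := by
    have e : X ^ (Θ + ε) = X ^ (ε / 2) * X ^ (Θ + ε / 2) := by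
      rw [← Real.rpow_add hX0]; congr 1; ring
    rw [e]
    have : 3 * (H * X ^ (Θ + ε / 2)) ≤ X ^ (ε / 2) * (H * X ^ (Θ + ε / 2)) :=
      mul_le_mul_of_nonneg_right a4 (by positivity)
    linarith
  linarith

/-- one length, second moments -/
theorem zf_of_one_var (hs : Short f m) (hf : Nice f) (hg : Gr f) (hw : Win f) {Θ : ℝ} (h0 : 1 / 2 ≤ Θ)
    (h1 : Θ < 1) (h : ∀ ε : ℝ, 0 < ε → ∃ᶠ X : ℝ in atTop, ∃ H : ℝ, X ^ (2 - 2 * Θ) ≤ H ∧ H ≤ X ^ Θ ∧
      ∫ x in X..(2 * X), m x H ^ 2 ≤ X * (H * X ^ ε)) : ZF Θ := by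
  refine zf_of_one_mean hs hf hg hw h0 h1 fun ε hε => ?_
  refine ((h ε hε).and_eventually (eventually_ge_atTop 1)).mono ?_
  rintro X ⟨⟨H, b1, b2, b3⟩, a2⟩
  have hX0 : 0 < X := by linarith
  have hH0 : 0 < H := (Real.rpow_pos_of_pos hX0 _).trans_le b1
  refine ⟨H, (Real.rpow_le_rpow_of_exponent_le a2 (by linarith)).trans b1, b2, ?_⟩
  have c := hs.L1L2 (X := X) (H := H) (v := (H * X ^ ε) ^ (1 / 2 : ℝ)) hX0.le hH0.le (by positivity) (by
    refine b3.trans (le_of_eq ?_)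
    rw [← Real.rpow_natCast _ 2, ← Real.rpow_mul (by positivity)]
    norm_num)
  refine c.trans ?_
  rw [Real.mul_rpow hH0.le (by positivity), ← Real.rpow_mul hX0.le]
  -- X * (H^(1/2) * X^(ε/2)) ≤ H * X^(Θ+ε)
  have e1 : H = H ^ (1 / 2 : ℝ) * H ^ (1 / 2 : ℝ) := by
    rw [← Real.rpow_add hH0]; norm_num
  have e2 : X ^ (1 - Θ) ≤ H ^ (1 / 2 : ℝ) := by
    have := Real.rpow_le_rpow (by positivity) b1 (show (0:ℝ) ≤ 1 / 2 by norm_num)
    rw [← Real.rpow_mul hX0.le] at this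
    rwa [show (2 - 2 * Θ) * (1 / 2) = 1 - Θ by ring] at this
  calc X * (H ^ (1 / 2 : ℝ) * X ^ (ε * (1 / 2)))
      = H ^ (1 / 2 : ℝ) * (X ^ (1 - Θ) * X ^ (Θ + ε * (1 / 2))) := by
        rw [← Real.rpow_add hX0]
        nth_rewrite 1 [← Real.rpow_one X]
        rw [mul_left_comm, ← Real.rpow_add hX0]
        congr 2
        ring
    _ ≤ H ^ (1 / 2 : ℝ) * (H ^ (1 / 2 : ℝ) * X ^ (Θ + ε)) := by
        gcongr
        linarith
    _ = H * X ^ (Θ + ε) := by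
        rw [← mul_assoc, ← e1]

/-- pointwise bounds -/
theorem ptw_of_zf (hs : Short f m) (hle : ∀ Θ : ℝ, 1 / 2 ≤ Θ → Θ < 1 → ZF Θ → ∀ τ : ℝ, Θ < τ →
      ∃ C : ℝ, 0 ≤ C ∧ ∀ y : ℝ, 1 ≤ y → |f y| ≤ C * y ^ τ)
    {Θ : ℝ} (h0 : 1 / 2 ≤ Θ) (h1 : Θ < 1) (hz : ZF Θ) (ε : ℝ) (hε : 0 < ε) :
    ∀ᶠ X : ℝ in atTop, ∀ H : ℝ, 0 ≤ H → H ≤ X → ∀ x : ℝ, X ≤ x → x ≤ 2 * X → |m x H| ≤ X ^ (Θ + ε) := by
  obtain ⟨C, hC, hb⟩ := hle Θ h0 h1 hz (Θ + ε / 2) (by linarith)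
  filter_upwards [eventually_ge_atTop 2, ev_log (show 0 < Θ + ε / 2 by linarith),
    ev_pow (show 0 < ε / 2 by linarith) (2 * (C * 3 ^ (Θ + ε / 2)) + 2)] with X a1 a2 a3 H b1 b2 x b3 b4
  have hX0 : 0 < X := by linarith
  have c1 := hs.close X a1 H b1 b2 x b3 b4
  have key : ∀ y : ℝ, 1 ≤ y → y ≤ 3 * X → |f y| ≤ C * 3 ^ (Θ + ε / 2) * X ^ (Θ + ε / 2) := by
    intro y hy1 hy2
    refine (hb y hy1).trans ?_
    rw [mul_assoc, ← Real.mul_rpow (by norm_num) hX0.le]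
    refine mul_le_mul_of_nonneg_left (Real.rpow_le_rpow (by linarith) hy2 (by linarith)) hC
  have c2 := key (x + H / 2) (by linarith) (by linarith)
  have c3 := key (x - H / 2) (by linarith) (by linarith)
  have c4 : |m x H| ≤ 2 * (C * 3 ^ (Θ + ε / 2) * X ^ (Θ + ε / 2)) + 2 * X ^ (Θ + ε / 2) := by
    have e : m x H = f (x + H / 2) - f (x - H / 2) - ((f (x + H / 2) - f (x - H / 2)) - m x H) := by ring
    rw [e]
    have d1 := abs_sub (f (x + H / 2) - f (x - H / 2)) ((f (x + H / 2) - f (x - H / 2)) - m x H)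
    have d2 := abs_sub (f (x + H / 2)) (f (x - H / 2))
    linarith
  have e : X ^ (Θ + ε) = X ^ (ε / 2) * X ^ (Θ + ε / 2) := by
    rw [← Real.rpow_add hX0]; congr 1; ring
  rw [e]
  have : (2 * (C * 3 ^ (Θ + ε / 2)) + 2) * X ^ (Θ + ε / 2) ≤ X ^ (ε / 2) * X ^ (Θ + ε / 2) :=
    mul_le_mul_of_nonneg_right a3 (by positivity)
  linarith

/-- second moments -/
theorem var_of_zf (hs : Short f m) (hle : ∀ Θ : ℝ, 1 / 2 ≤ Θ → Θ < 1 → ZF Θ → ∀ τ : ℝ, Θ < τ →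
      ∃ C : ℝ, 0 ≤ C ∧ ∀ y : ℝ, 1 ≤ y → |f y| ≤ C * y ^ τ)
    {Θ : ℝ} (h0 : 1 / 2 ≤ Θ) (h1 : Θ < 1) (hz : ZF Θ) (ε : ℝ) (hε : 0 < ε) :
    ∀ᶠ X : ℝ in atTop, ∀ H : ℝ, 0 ≤ H → H ≤ X →
      ∫ x in X..(2 * X), m x H ^ 2 ≤ X ^ (1 + 2 * Θ + ε) := by
  filter_upwards [ptw_of_zf hs hle h0 h1 hz (ε / 2) (by linarith), eventually_ge_atTop 2] with X a1 a2 H b1 b2
  have hX0 : 0 < X := by linarith
  obtain ⟨g, hg, hgm⟩ := hs.rep X H b1
  have e2 : ∫ x in X..(2 * X), m x H ^ 2 = ∫ x in X..(2 * X), g x ^ 2 := by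
    refine intervalIntegral.integral_congr fun x hx => ?_
    rw [uIcc_of_le (by linarith)] at hx
    rw [hgm x ⟨by linarith [hx.1], hx.2⟩]
  have h3 : ∫ x in X..(2 * X), g x ^ 2 ≤ ∫ x in X..(2 * X), (X ^ (Θ + ε / 2)) ^ 2 := by
    refine intervalIntegral.integral_mono_on (by linarith) (hg.sq.ii _ _) intervalIntegrable_const
      fun x hx => ?_
    have := a1 H b1 b2 x hx.1 hx.2
    rw [hgm x ⟨by linarith [hx.1], hx.2⟩] at this
    rw [← sq_abs]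
    exact pow_le_pow_left₀ (abs_nonneg _) this 2
  rw [e2]
  refine h3.trans (le_of_eq ?_)
  rw [intervalIntegral.integral_const, smul_eq_mul, show 2 * X - X = X by ring,
    ← Real.rpow_natCast (X ^ (Θ + ε / 2)) 2, ← Real.rpow_mul hX0.le]
  nth_rewrite 1 [← Real.rpow_one X]
  rw [← Real.rpow_add hX0]
  congr 1
  push_cast
  ring

/-! ## Möbius sums -/

/-- `∑_{|n - x| < H/2} μ(n)` -/
noncomputable def mM (x H : ℝ) : ℝ :=
  ∑ n ∈ (Finset.range (⌈x + H⌉₊ + 1)).filter (fun n : ℕ => |(n : ℝ) - x| < H / 2),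
    ((ArithmeticFunction.moebius n : ℤ) : ℝ)

theorem mM_short : Short fM mM where
  rep X H hH := by
    set N : ℕ := ⌈2 * X + H⌉₊ + 1 with hN
    refine ⟨fun x => ∑ n ∈ Finset.range N, if |(n : ℝ) - x| < H / 2 then
      ((ArithmeticFunction.moebius n : ℤ) : ℝ) else 0, nice_sum _ N (fun n x => |(n : ℝ) - x| < H / 2) ?_, ?_⟩
    · intro n
      exact measurableSet_lt (by fun_prop) measurable_const
    · intro x hx
      unfold mM
      rw [Finset.sum_filter]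
      refine Finset.sum_subset ?_ fun n _ hn => ?_
      · intro n hn
        rw [Finset.mem_range] at hn ⊢
        refine hn.trans_le ?_
        rw [hN]
        exact Nat.succ_le_succ (Nat.ceil_mono (by linarith [hx.2]))
      · rw [if_neg]
        intro h
        apply hn
        rw [Finset.mem_range]
        have h1 := (abs_lt.1 h).2
        have h2 : (n : ℝ) ≤ x + H := by linarith
        have h3 := h2.trans (Nat.le_ceil _)
        have h4 : n ≤ ⌈x + H⌉₊ := by exact_mod_cast h3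
        omega
  close X hX H hH hHX x hx1 hx2 := by
    have hl := Real.log_nonneg (by linarith : (1:ℝ) ≤ X)
    have := short_sum (fun n => ((ArithmeticFunction.moebius n : ℤ) : ℝ)) (x := x) (H := H) (C := 1) hH
      (by linarith) (fun n _ => mu_le n) zero_le_one
      ((Finset.range (⌈x + H⌉₊ + 1)).filter (fun n : ℕ => |(n : ℝ) - x| < H / 2))
      (fun n h1 h2 => by
        rw [Finset.mem_filter, Finset.mem_range]
        refine ⟨?_, abs_lt.2 ⟨by linarith, by linarith⟩⟩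
        have h3 := (show (n : ℝ) ≤ x + H by linarith).trans (Nat.le_ceil _)
        have h4 : n ≤ ⌈x + H⌉₊ := by exact_mod_cast h3
        omega)
      (fun n hn => by
        rw [Finset.mem_filter] at hn
        have := abs_lt.1 hn.2
        constructor <;> linarith)
    refine this.trans ?_
    linarith

end Pool.Agent.Q32.Si
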