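import Pool.Agent.Q32.Si.B
import Pool.Agent.W190.A17
import Pool.Agent.H295R2.M

set_option autoImplicit false

/-! # The Mertens and Chebyshev functions in short intervals -/

open Filter Topology Set MeasureTheory

namespace Pool.Agent.Q32.Si

open Pool.Agent.W190 (SF)

/-- the Mertens function -/
noncomputable def fM : ℝ → ℝ := SF (fun n => ((ArithmeticFunction.moebius n : ℤ) : ℝ))

theorem fM_nice : Nice fM := SF_nice _

theorem mu_le (n : ℕ) : |((ArithmeticFunction.moebius n : ℤ) : ℝ)| ≤ 1 := by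
  exact_mod_cast ArithmeticFunction.abs_moebius_le_one

theorem fM_gr : Gr fM := by
  intro X hX y z hy hyz hz
  have h1 := SF_inc (fun n => ((ArithmeticFunction.moebius n : ℤ) : ℝ)) (y := y) (z := z) (C := 1)
    (by linarith) hyz (fun n _ => mu_le n) zero_le_one
  have h2 := Real.log_nonneg hX
  refine h1.trans (mul_le_mul_of_nonneg_right (by linarith) (by linarith))

theorem fM_win : Win fM := by
  intro θ hθ hz
  have h := Pool.Agent.W190.moebius_window (κ := 0) (c := 1 / 5) (δ := 0) le_rfl (by norm_num)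
    (by norm_num) hθ (by nlinarith [sq_nonneg (2 * θ - 1)]) hz
  filter_upwards [h] with x hx c
  have h1 := hx (Polynomial.C c) (by simp)
  simp only [Polynomial.eval_C, Real.rpow_zero, div_one] at h1
  rw [show (1 / 5 : ℝ) * x = x / 5 by ring] at h1
  exact h1

theorem fM_le {Θ : ℝ} (h0 : 1 / 2 ≤ Θ) (h1 : Θ < 1) (hz : ZF Θ) {τ : ℝ} (hτ : Θ < τ) :
    ∃ C : ℝ, 0 ≤ C ∧ ∀ y : ℝ, 1 ≤ y → |fM y| ≤ C * y ^ τ := by
  have hZs : ∀ s : ℂ, Θ < s.re → Pool.Agent.H295R2.Zs s ≠ 0 := by
    intro s hs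
    by_cases h : s = 1
    · rw [h]
      unfold Pool.Agent.H295R2.Zs
      simp
    · rw [← Pool.Agent.H295R2.Zs_eq h]
      exact mul_ne_zero (sub_ne_zero.2 h) (hz s hs)
  have hm : Θ < min τ 2 := lt_min hτ (by linarith)
  obtain ⟨C, _, hC⟩ := Pool.Agent.H295R2.mertens_bound (by linarith) hZs hm (min_le_right _ _)
  have hC0 : 0 ≤ C := by
    have := (abs_nonneg _).trans (hC 1 le_rfl)
    simpa using this
  refine ⟨C, hC0, fun x hx => ?_⟩
  have h3 : fM x = ∑ n ∈ Finset.Icc 1 ⌊x⌋₊, ((ArithmeticFunction.moebius n : ℤ) : ℝ) := rfl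
  rw [h3]
  refine (hC x hx).trans ?_
  exact mul_le_mul_of_nonneg_left (Real.rpow_le_rpow_of_exponent_le hx (min_le_left _ _)) hC0

/-- the error term of the prime number theorem -/
noncomputable def fP (y : ℝ) : ℝ := SF (fun n => ArithmeticFunction.vonMangoldt n) y - y

theorem fP_nice : Nice fP := by
  refine (SF_nice _).sub (g := fun y => y) ⟨measurable_id, fun a b => ⟨max |a| |b|, fun y hy => ?_⟩⟩
  exact abs_le_max_abs_abs hy.1 hy.2

theorem vm_le {n : ℕ} {z : ℝ} (h : (n : ℝ) ≤ z) (hz : 1 ≤ z) : |ArithmeticFunction.vonMangoldt n| ≤ Real.log z := by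
  rw [abs_of_nonneg ArithmeticFunction.vonMangoldt_nonneg]
  refine ArithmeticFunction.vonMangoldt_le_log.trans ?_
  rcases Nat.eq_zero_or_pos n with h0 | h0
  · subst h0; simpa using Real.log_nonneg hz
  · exact Real.log_le_log (by exact_mod_cast h0) h

theorem fP_gr : Gr fP := by
  intro X hX y z hy hyz hz
  have h2 := Real.log_nonneg hX
  have h3 : Real.log (2 * X) ≤ Real.log X + 1 := by
    rw [Real.log_mul (by norm_num) (by linarith)]
    have := Real.log_two_lt_d9
    linarith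
  have h1 := SF_inc (fun n => ArithmeticFunction.vonMangoldt n) (y := y) (z := z) (C := Real.log X + 1)
    (by linarith) hyz (fun n hn => (vm_le (hn.trans hz) (by linarith)).trans h3) (by linarith)
  have e : fP z - fP y = (SF (fun n => ArithmeticFunction.vonMangoldt n) z -
    SF (fun n => ArithmeticFunction.vonMangoldt n) y) - (z - y) := by
    unfold fP; ring
  rw [e]
  refine (abs_sub _ _).trans ?_
  rw [abs_of_nonneg (by linarith : 0 ≤ z - y)]
  nlinarith

theorem fP_win : Win fP := by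
  intro θ hθ hz
  have h := Pool.Agent.W190.mangoldt_window (κ := 0) (c := 1 / 5) (δ := 1 / 2) le_rfl (by norm_num)
    (by norm_num) hθ (by nlinarith [sq_nonneg (2 * θ - 1)]) hz
  filter_upwards [h, eventually_ge_atTop (Real.exp 1)] with x hx hx1 c
  have hl : 1 ≤ Real.log x := by rwa [Real.le_log_iff_exp_le ((Real.exp_pos 1).trans_le hx1)]
  have h1 := hx (Polynomial.X + Polynomial.C c) (by
    have h2 : ((Polynomial.X + Polynomial.C c : Polynomial ℝ).natDegree : ℝ) ≤ 1 := by
      have : (Polynomial.X + Polynomial.C c : Polynomial ℝ).natDegree ≤ 1 := by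
        rw [Polynomial.natDegree_X_add_C]
      exact_mod_cast this
    exact h2.trans (Real.one_le_rpow hl (by norm_num)))
  simp only [Polynomial.eval_add, Polynomial.eval_X, Polynomial.eval_C, Real.rpow_zero, div_one] at h1
  rw [show (1 / 5 : ℝ) * x = x / 5 by ring] at h1
  refine h1.trans_le (le_of_eq ?_)
  refine intervalIntegral.integral_congr fun y _ => ?_
  unfold fP
  rw [sub_sub]

theorem fP_le {Θ : ℝ} (h0 : 1 / 2 ≤ Θ) (h1 : Θ < 1) (hz : ZF Θ) {τ : ℝ} (hτ : Θ < τ) :
    ∃ C : ℝ, 0 ≤ C ∧ ∀ y : ℝ, 1 ≤ y → |fP y| ≤ C * y ^ τ := by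
  obtain ⟨C, hC0, hC⟩ := Pool.Agent.W190.psi_of_free Θ h0 hz (min τ 1) (lt_min hτ h1) (min_le_right _ _)
  refine ⟨C, hC0.le, fun y hy => ?_⟩
  have := hC y hy
  unfold fP
  rw [Pool.Agent.W190.SF_psi]
  refine this.trans ?_
  exact mul_le_mul_of_nonneg_left (Real.rpow_le_rpow_of_exponent_le hy (min_le_left _ _)) hC0.le

end Pool.Agent.Q32.Si
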