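import Pool.Agent.Q32.Si.C

set_option autoImplicit false

/-! # Primes in short intervals -/

open Filter Topology Set MeasureTheory

namespace Pool.Agent.Q32.Si

open Pool.Agent.W190 (SF)

/-- The weighted number of prime powers in the interval of length `H` centred at `x`. -/
noncomputable def psiS (x H : ℝ) : ℝ :=
  ∑ᶠ n ∈ {n : ℕ | 1 ≤ n ∧ x - H / 2 ≤ n ∧ (n : ℝ) ≤ x + H / 2}, ArithmeticFunction.vonMangoldt n

theorem psiS_eq {x H : ℝ} {N : ℕ} (hN : x + H / 2 < N) : psiS x H =
    ∑ n ∈ (Finset.range N).filter (fun n : ℕ => x - H / 2 ≤ n ∧ (n : ℝ) ≤ x + H / 2),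
      ArithmeticFunction.vonMangoldt n := by
  classical
  unfold psiS
  have hset : {n : ℕ | 1 ≤ n ∧ x - H / 2 ≤ n ∧ (n : ℝ) ≤ x + H / 2} =
      (((Finset.range N).filter (fun n : ℕ => 1 ≤ n ∧ x - H / 2 ≤ n ∧ (n : ℝ) ≤ x + H / 2) : Finset ℕ) : Set ℕ) := by
    ext n
    simp only [mem_ofPred_eq, Finset.coe_filter, Finset.mem_range]
    constructor
    · intro h
      refine ⟨?_, h⟩
      have : (n : ℝ) < N := h.2.2.trans_lt hN
      exact_mod_cast this
    · exact fun h => h.2
  rw [hset, finsum_mem_coe_finset]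
  refine Finset.sum_subset ?_ fun n hn hn' => ?_
  · intro n hn
    rw [Finset.mem_filter] at hn ⊢
    exact ⟨hn.1, hn.2.2⟩
  · rw [Finset.mem_filter] at hn hn'
    have : n = 0 := by
      by_contra h0
      exact hn' ⟨hn.1, Nat.one_le_iff_ne_zero.2 h0, hn.2⟩
    rw [this]
    simp

/-- the error term -/
noncomputable def mP (x H : ℝ) : ℝ := psiS x H - H

theorem mP_short : Short fP mP where
  rep X H hH := by
    obtain ⟨N, hN⟩ := exists_nat_gt (2 * X + H / 2)
    refine ⟨fun x => (∑ n ∈ Finset.range N, if (x - H / 2 ≤ n ∧ (n : ℝ) ≤ x + H / 2) then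
      ArithmeticFunction.vonMangoldt n else 0) - H, ?_, ?_⟩
    · refine (nice_sum _ N (fun n x => x - H / 2 ≤ n ∧ (n : ℝ) ≤ x + H / 2) ?_).sub
        (g := fun _ => H) ⟨measurable_const, fun _ _ => ⟨|H|, fun _ _ => le_rfl⟩⟩
      intro n
      have i1 : MeasurableSet {x : ℝ | x - H / 2 ≤ n} :=
        measurableSet_le (f := fun x : ℝ => x - H / 2) (g := fun _ => (n : ℝ)) (by fun_prop) measurable_const
      have i2 : MeasurableSet {x : ℝ | (n : ℝ) ≤ x + H / 2} :=
        measurableSet_le (f := fun _ : ℝ => (n : ℝ)) (g := fun x : ℝ => x + H / 2) measurable_const (by fun_prop)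
      exact i1.inter i2
    · intro x hx
      unfold mP
      rw [psiS_eq (N := N) (by linarith [hx.2]), Finset.sum_filter]
  close X hX H hH hHX x hx1 hx2 := by
    have hl := Real.log_nonneg (by linarith : (1:ℝ) ≤ X)
    obtain ⟨N, hN⟩ := exists_nat_gt (x + H / 2)
    have hlog : Real.log (x + H / 2) ≤ Real.log X + 3 := by
      have h1 : x + H / 2 ≤ 4 * X := by linarith
      have h2 : Real.log (x + H / 2) ≤ Real.log (4 * X) := Real.log_le_log (by linarith) h1
      rw [Real.log_mul (by norm_num) (by linarith)] at h2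
      have h3 : Real.log 4 ≤ 3 := by
        have := Real.log_le_sub_one_of_pos (show (0:ℝ) < 4 by norm_num)
        linarith
      linarith
    have := short_sum (fun n => ArithmeticFunction.vonMangoldt n) (x := x) (H := H) (C := Real.log X + 3) hH
      (by linarith) (fun n hn => (vm_le hn (by linarith)).trans hlog) (by linarith)
      ((Finset.range N).filter (fun n : ℕ => x - H / 2 ≤ n ∧ (n : ℝ) ≤ x + H / 2))
      (fun n h1 h2 => by
        rw [Finset.mem_filter, Finset.mem_range]
        refine ⟨?_, h1.le, h2.le⟩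
        have h3 : (n : ℝ) < N := h2.trans hN
        exact_mod_cast h3)
      (fun n hn => (Finset.mem_filter.1 hn).2)
    rw [← psiS_eq hN] at this
    have e : (fP (x + H / 2) - fP (x - H / 2)) - mP x H =
        (SF (fun n => ArithmeticFunction.vonMangoldt n) (x + H / 2) -
          SF (fun n => ArithmeticFunction.vonMangoldt n) (x - H / 2)) - psiS x H := by
      unfold fP mP
      ring
    rw [e]
    exact this

end Pool.Agent.Q32.Si
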